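import Pool.Agent.Y271.RO.Stm2
import Pool.Agent.Y77.NK.ADJ

/-!
Normal operators outside the essential spectrum.
-/

set_option autoImplicit false

namespace Pool.Agent.Y180.RO.FRE

open MeasureTheory Set Metric Filter Topology
open scoped InnerProductSpace ENNReal NNReal ComplexConjugate ContDiff
open Pool.Agent.Y283.NK (ct IsMul HasHyp)
open Pool.Agent.Y271.RO

section mul

variable {S : Type} [MeasurableSpace S] {μ : Measure S}

/-- multiplication operators exist -/
theorem exists_mul (μ : Measure S) {g : S → ℂ} (hg : Measurable g) {B : ℝ}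
    (hB : ∀ s, ‖g s‖ ≤ B) : ∃ T : Lp ℂ 2 μ →L[ℂ] Lp ℂ 2 μ, IsMul g T := by
  have hmem : ∀ f : Lp ℂ 2 μ, MemLp (fun s => g s * f s) 2 μ := fun f => by
    refine MemLp.of_le_mul (c := B) (Lp.memLp f)
      (hg.aestronglyMeasurable.mul (Lp.memLp f).aestronglyMeasurable) ?_
    refine Eventually.of_forall fun s => ?_
    rw [norm_mul]
    exact mul_le_mul_of_nonneg_right (hB s) (norm_nonneg _)
  have hco : ∀ f : Lp ℂ 2 μ, ⇑((hmem f).toLp _) =ᵐ[μ] fun s => g s * f s :=
    fun f => (hmem f).coeFn_toLp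
  let T0 : Lp ℂ 2 μ →ₗ[ℂ] Lp ℂ 2 μ :=
    { toFun := fun f => (hmem f).toLp _
      map_add' := fun f f' => by
        apply Lp.ext
        filter_upwards [hco (f + f'), hco f, hco f', Lp.coeFn_add f f',
          Lp.coeFn_add ((hmem f).toLp _) ((hmem f').toLp _)] with s h1 h2 h3 h4 h5
        rw [h1, h5, Pi.add_apply, h2, h3, h4, Pi.add_apply, mul_add]
      map_smul' := fun c f => by
        apply Lp.ext
        filter_upwards [hco (c • f), hco f, Lp.coeFn_smul c f,
          Lp.coeFn_smul c ((hmem f).toLp _)] with s h1 h2 h3 h4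
        rw [h1, RingHom.id_apply, h4, Pi.smul_apply, h2, h3, Pi.smul_apply, smul_eq_mul,
          smul_eq_mul]
        ring }
  refine ⟨T0.mkContinuous B fun f => ?_, hg, ⟨B, hB⟩, hco⟩
  refine Lp.norm_le_mul_norm_of_ae_le_mul ?_
  filter_upwards [hco f] with s h1
  change ‖((hmem f).toLp _ : Lp ℂ 2 μ) s‖ ≤ _
  rw [h1, norm_mul]
  exact mul_le_mul_of_nonneg_right (hB s) (norm_nonneg _)

/-- vectors which live on the set where `φ` is in the disc -/
def Hs (μ : Measure S) (φ : S → ℂ) (c : ℂ) (ρ : ℝ) : Submodule ℂ (Lp ℂ 2 μ) where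
  carrier := {x | ∀ᵐ s ∂μ, φ s ∉ ball c ρ → x s = 0}
  zero_mem' := by
    filter_upwards [Lp.coeFn_zero ℂ 2 μ] with s h _
    rw [h, Pi.zero_apply]
  add_mem' := by
    intro x y hx hy
    filter_upwards [hx, hy, Lp.coeFn_add x y] with s h1 h2 h3 h4
    rw [h3, Pi.add_apply, h1 h4, h2 h4, add_zero]
  smul_mem' := by
    intro a x hx
    filter_upwards [hx, Lp.coeFn_smul a x] with s h1 h3 h4
    rw [h3, Pi.smul_apply, h1 h4, smul_zero]

theorem Hs_mono (μ : Measure S) (φ : S → ℂ) (c : ℂ) {ρ ρ' : ℝ} (h : ρ ≤ ρ') :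
    Hs μ φ c ρ ≤ Hs μ φ c ρ' := by
  intro x hx
  have hx' : ∀ᵐ s ∂μ, φ s ∉ ball c ρ → x s = 0 := hx
  show ∀ᵐ s ∂μ, φ s ∉ ball c ρ' → x s = 0
  filter_upwards [hx'] with s h1 h2
  exact h1 fun h3 => h2 (ball_subset_ball h h3)

/-- the operator is almost a scalar on these vectors -/
theorem step {φ : S → ℂ} {N : Lp ℂ 2 μ →L[ℂ] Lp ℂ 2 μ} (hN : IsMul φ N) {c : ℂ} {ρ : ℝ}
    {x : Lp ℂ 2 μ} (hx : ∀ᵐ s ∂μ, φ s ∉ ball c ρ → x s = 0) :
    ‖N x - c • x‖ ≤ ρ * ‖x‖ := by
  refine Lp.norm_le_mul_norm_of_ae_le_mul ?_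
  filter_upwards [hx, hN.eq x, Lp.coeFn_sub (N x) (c • x), Lp.coeFn_smul c x] with s h1 h2 h3 h4
  rw [h3, Pi.sub_apply, h2, h4, Pi.smul_apply, smul_eq_mul, ← sub_mul, norm_mul]
  by_cases hs : φ s ∈ ball c ρ
  · rw [mem_ball, dist_eq_norm] at hs
    exact mul_le_mul_of_nonneg_right hs.le (norm_nonneg _)
  · rw [h1 hs, norm_zero, mul_zero, mul_zero]

end mul

section hilbert

variable {H : Type} [NormedAddCommGroup H] [InnerProductSpace ℂ H]

/-- a unit vector orthogonal to finitely many vectors -/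
theorem exists_orth (V : Submodule ℂ H) (hV : ¬ FiniteDimensional ℂ V) (s : Finset H) :
    ∃ y ∈ V, ‖y‖ = 1 ∧ ∀ x ∈ s, ⟪x, y⟫_ℂ = 0 := by
  by_contra hcon
  apply hV
  let L : V →ₗ[ℂ] (s → ℂ) :=
    LinearMap.pi fun x : s => (innerSL ℂ (x : H)).toLinearMap ∘ₗ V.subtype
  have hL : Function.Injective L := by
    rw [← LinearMap.ker_eq_bot, LinearMap.ker_eq_bot']
    intro y hy
    by_contra hy0
    have hy1 : (y : H) ≠ 0 := fun h => hy0 (Subtype.ext h)
    have hn : ‖(y : H)‖ ≠ 0 := norm_ne_zero_iff.mpr hy1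
    apply hcon
    refine ⟨((‖(y : H)‖⁻¹ : ℝ) : ℂ) • (y : H), V.smul_mem _ y.2, ?_, fun x hx => ?_⟩
    · rw [norm_smul, Complex.norm_real, norm_inv, norm_norm, inv_mul_cancel₀ hn]
    · have h1 : ⟪x, (y : H)⟫_ℂ = 0 := congrFun hy ⟨x, hx⟩
      rw [inner_smul_right, h1, mul_zero]
  exact FiniteDimensional.of_injective L hL

/-- an orthonormal sequence in a decreasing sequence of subspaces of infinite dimension -/
theorem exists_seq (V : ℕ → Submodule ℂ H) (hV : ∀ n, ¬ FiniteDimensional ℂ (V n))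
    (hanti : ∀ m n, m ≤ n → V n ≤ V m) : ∃ e : ℕ → H, Orthonormal ℂ e ∧ ∀ n, e n ∈ V n := by
  classical
  obtain ⟨f, hf1, hf2⟩ := exists_seq_of_forall_finset_exists
    (fun p : H × ℕ => ‖p.1‖ = 1 ∧ p.1 ∈ V p.2)
    (fun p q : H × ℕ => p.2 < q.2 ∧ ⟪p.1, q.1⟫_ℂ = 0) (by
      intro s _
      obtain ⟨y, hy1, hy2, hy3⟩ := exists_orth (V (s.sup (fun p => p.2) + 1)) (hV _)
        (s.image (fun p => p.1))
      refine ⟨(y, s.sup (fun p => p.2) + 1), ⟨hy2, hy1⟩, fun p hp => ⟨?_, ?_⟩⟩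
      · exact Nat.lt_succ_of_le (Finset.le_sup (f := fun p : H × ℕ => p.2) hp)
      · exact hy3 _ (Finset.mem_image_of_mem _ hp))
  have hmono : ∀ n, n ≤ (f n).2 := by
    intro n
    induction n with
    | zero => exact Nat.zero_le _
    | succ n ih =>
      have := (hf2 n (n + 1) (Nat.lt_succ_self n)).1
      omega
  refine ⟨fun n => (f n).1, ⟨fun n => (hf1 n).1, ?_⟩, fun n => hanti _ _ (hmono n) (hf1 n).2⟩
  intro m n hmn
  rcases lt_or_gt_of_ne hmn with h | h
  · exact (hf2 m n h).2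
  · have h1 := (hf2 n m h).2
    change ⟪(f m).1, (f n).1⟫_ℂ = 0
    rw [← inner_conj_symm, h1, map_zero]

theorem weak_of_orthonormal {e : ℕ → H} (he : Orthonormal ℂ e) (w : H) :
    Tendsto (fun n => ⟪w, e n⟫_ℂ) atTop (𝓝 0) := by
  have h1 := (he.inner_products_summable (x := w)).tendsto_atTop_zero
  rw [tendsto_zero_iff_norm_tendsto_zero]
  have h2 : Tendsto (fun n => √(‖⟪e n, w⟫_ℂ‖ ^ 2)) atTop (𝓝 0) := by
    have := (Real.continuous_sqrt.tendsto 0).comp h1
    rwa [Real.sqrt_zero] at this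
  refine h2.congr fun n => ?_
  rw [Real.sqrt_sq (norm_nonneg _), norm_inner_symm]

end hilbert

theorem main : S_FRE := by
  intro S _ μ _ φ N hN c
  by_cases hinf : ∀ ρ : ℝ, 0 < ρ → ¬ FiniteDimensional ℂ (Hs μ φ c ρ)
  · left
    obtain ⟨e, he, hmem⟩ := exists_seq (fun n : ℕ => Hs μ φ c (1 / ((n : ℝ) + 1)))
      (fun n => hinf _ (by positivity))
      (fun m n hmn => Hs_mono μ φ c (by
        apply one_div_le_one_div_of_le (by positivity)
        have : (m : ℝ) ≤ n := by exact_mod_cast hmn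
        linarith))
    have hz : Tendsto (fun n : ℕ => 1 / ((n : ℝ) + 1)) atTop (𝓝 0) :=
      tendsto_one_div_add_atTop_nhds_zero_nat
    refine ⟨e, he.1, weak_of_orthonormal he, ?_, ?_⟩
    · rw [tendsto_zero_iff_norm_tendsto_zero]
      refine squeeze_zero (fun n => norm_nonneg _) (fun n => ?_) hz
      have h1 := step hN (hmem n)
      rwa [he.1 n, mul_one] at h1
    · rw [tendsto_zero_iff_norm_tendsto_zero]
      refine squeeze_zero (fun n => norm_nonneg _) (fun n => ?_) hz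
      have hx : ∀ᵐ s ∂μ, (conj (φ s)) ∉ ball (conj c) (1 / ((n : ℝ) + 1)) → e n s = 0 := by
        filter_upwards [hmem n] with s h1 h2
        apply h1
        intro h3
        apply h2
        rw [mem_ball, dist_eq_norm] at h3 ⊢
        rwa [← map_sub, Complex.norm_conj]
      have h1 := step (Pool.Agent.Y77.NK.isMul_adj hN) hx
      rwa [he.1 n, mul_one] at h1
  · right
    push Not at hinf
    obtain ⟨ρ, hρ, hfin⟩ := hinf
    obtain ⟨M, hM⟩ := hN.bdd
    have hE : MeasurableSet {s | φ s ∈ ball c ρ} := hN.meas measurableSet_ball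
    classical
    obtain ⟨g, hg⟩ : ∃ g : S → ℂ, g = fun s => if φ s ∈ ball c ρ then φ s - c - 1 else 0 := ⟨_, rfl⟩
    obtain ⟨ψ, hψ⟩ : ∃ ψ : S → ℂ, ψ = fun s => if φ s ∈ ball c ρ then c + 1 else φ s := ⟨_, rfl⟩
    obtain ⟨χ, hχ⟩ : ∃ χ : S → ℂ, χ = fun s => (c - ψ s)⁻¹ := ⟨_, rfl⟩
    have hgm : Measurable g := by
      rw [hg]
      exact Measurable.ite hE ((hN.meas.sub_const c).sub_const 1) measurable_const
    have hψm : Measurable ψ := by
      rw [hψ]
      exact Measurable.ite hE measurable_const hN.meas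
    have hχm : Measurable χ := by
      rw [hχ]
      exact (measurable_const.sub hψm).inv
    have hgB : ∀ s, ‖g s‖ ≤ ρ + 1 := by
      intro s
      rw [hg]
      simp only
      split_ifs with h
      · rw [mem_ball, dist_eq_norm] at h
        calc ‖φ s - c - 1‖ ≤ ‖φ s - c‖ + ‖(1 : ℂ)‖ := norm_sub_le _ _
          _ ≤ ρ + 1 := by rw [norm_one]; linarith
      · rw [norm_zero]
        linarith
    have hψB : ∀ s, ‖ψ s‖ ≤ max (‖c‖ + 1) M := by
      intro s
      rw [hψ]
      simp only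
      split_ifs with h
      · refine le_trans ?_ (le_max_left _ _)
        calc ‖c + 1‖ ≤ ‖c‖ + ‖(1 : ℂ)‖ := norm_add_le _ _
          _ = ‖c‖ + 1 := by rw [norm_one]
      · exact (hM s).trans (le_max_right _ _)
    have hlow : ∀ s, min ρ 1 ≤ ‖c - ψ s‖ := by
      intro s
      rw [hψ]
      simp only
      split_ifs with h
      · have : c - (c + 1) = -1 := by ring
        rw [this, norm_neg, norm_one]
        exact min_le_right _ _
      · rw [mem_ball, dist_eq_norm, not_lt] at h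
        rw [norm_sub_rev]
        exact (min_le_left _ _).trans h
    have hmin : 0 < min ρ 1 := lt_min hρ one_pos
    have hne : ∀ s, c - ψ s ≠ 0 := fun s h => by
      have := hlow s
      rw [h, norm_zero] at this
      linarith
    have hχB : ∀ s, ‖χ s‖ ≤ (min ρ 1)⁻¹ := by
      intro s
      rw [hχ]
      simp only
      rw [norm_inv]
      exact inv_anti₀ hmin (hlow s)
    obtain ⟨F, hF⟩ := exists_mul μ hgm hgB
    obtain ⟨A, hA⟩ := exists_mul μ hψm hψB
    obtain ⟨R, hR⟩ := exists_mul μ hχm hχB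
    refine ⟨A, F, ?_, ?_, ?_⟩
    · -- the decomposition
      apply ContinuousLinearMap.ext
      intro f
      apply Lp.ext
      rw [add_apply]
      filter_upwards [hN.eq f, hA.eq f, hF.eq f, Lp.coeFn_add (A f) (F f)] with s h1 h2 h3 h4
      rw [h4, Pi.add_apply, h1, h2, h3, ← add_mul]
      congr 1
      rw [hψ, hg]
      simp only
      split_ifs with h
      · ring
      · ring
    · -- compactness
      have hmemF : ∀ f, F f ∈ Hs μ φ c ρ := by
        intro f
        filter_upwards [hF.eq f] with s h1 h2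
        rw [h1, hg]
        simp only
        rw [if_neg h2, zero_mul]
      have hcpt : IsCompactOperator (F.codRestrict (Hs μ φ c ρ) hmemF) :=
        isCompactOperator_of_locallyCompactSpace_dom _
      have h2 := hcpt.clm_comp (Hs μ φ c ρ).subtypeL
      exact h2
    · -- the resolvent
      rw [spectrum.notMem_iff]
      have key : ∀ (P Q : S → ℂ) (TP TQ : Lp ℂ 2 μ →L[ℂ] Lp ℂ 2 μ), (∀ f, ⇑(TP f) =ᵐ[μ]
          fun s => P s * f s) → (∀ f, ⇑(TQ f) =ᵐ[μ] fun s => Q s * f s) → (∀ s, P s * Q s = 1) →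
          TP * TQ = 1 := by
        intro P Q TP TQ hP hQ hPQ
        apply ContinuousLinearMap.ext
        intro f
        apply Lp.ext
        rw [mul_apply_eq_comp, one_apply_eq_self]
        filter_upwards [hP (TQ f), hQ f] with s h1 h2
        rw [h1, h2, ← mul_assoc, hPQ, one_mul]
      have hcA : ∀ f, ⇑((algebraMap ℂ (Lp ℂ 2 μ →L[ℂ] Lp ℂ 2 μ) c - A) f) =ᵐ[μ]
          fun s => (c - ψ s) * f s := by
        intro f
        have e1 : (algebraMap ℂ (Lp ℂ 2 μ →L[ℂ] Lp ℂ 2 μ) c - A) f = c • f - A f := rfl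
        rw [e1]
        filter_upwards [Lp.coeFn_sub (c • f) (A f), Lp.coeFn_smul c f, hA.eq f] with s h1 h2 h3
        rw [h1, Pi.sub_apply, h2, h3, Pi.smul_apply, smul_eq_mul, sub_mul]
      rw [isUnit_iff_exists]
      refine ⟨R, ?_, ?_⟩
      · refine key (fun s => c - ψ s) χ _ R hcA hR.eq fun s => ?_
        rw [hχ]
        exact mul_inv_cancel₀ (hne s)
      · refine key χ (fun s => c - ψ s) R _ hR.eq hcA fun s => ?_
        rw [hχ]
        exact inv_mul_cancel₀ (hne s)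

end Pool.Agent.Y180.RO.FRE
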